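import Mathlib
import Pool.Agent.R504.RestrPart

set_option autoImplicit false

/-!
# Sequences whose restricted partition counts have odd density tending to one half (MP_4155d9_nt)

Call a term `a_i` of a sequence `A` of positive integers isolated if it is odd, greater than 1 and
coprime to all other terms. If the sum of the reciprocals of the isolated terms diverges, then
`gcd A = 1` and the odd density `δ_A(k)` tends to `1/2`. This applies to the sequences of the primes
`≥ p_m` (in increasing order, or in any order), and more generally to all enumerations of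
sets of primes with divergent sum of reciprocals: infinitely many sequences.

Proof. Let `f(n) = p_A(n, k) mod 2`, a function of period `P = 2^k a_1 ⋯ a_k`, let `a_j` be isolated,
`j ≤ k`, and `q_j = P / a_j`. Over `F_2` the polynomial `∏_{i ≤ k} (1 - x^(a_i))` divides
`(1 - x^(q_j)) (1 - x^(a_j))`, so
`f(n + q_j + a_j) + f(n + q_j) + f(n + a_j) + f(n) = 0` (a discrete independence of the residues of
`n` modulo `a_j` and modulo `q_j`). Since `1 - x^(a_j)` does not divide `1 - x^(q_j)`, for no `n` are
all the `f(n + t q_j)` equal. By averaging over the translations by the multiples of all `q_j`,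
`|∑_{n < P} (-1)^f(n)| ≤ P ∏_j (1 - 2 / a_j)`.
-/

namespace Pool.Agent.Results.MP_4155d9_nt.DivergentReciprocals

open Pool.Agent.R504.RestrPart Filter Topology

/-- the term `a_i` is odd, greater than 1 and coprime to all other terms of the sequence -/
def Isolated (a : ℕ → ℕ) (i : ℕ) : Prop :=
  Odd (a i) ∧ 1 < a i ∧ ∀ j, j ≠ i → Nat.Coprime (a i) (a j)

open Classical in
/-- the sequences of positive integers for which the sum of the reciprocals of the isolated terms
diverges -/
def Family : Set (ℕ → ℕ) :=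
  {a | (∀ i, 0 < a i) ∧ ¬ Summable fun i => if Isolated a i then (1 : ℝ) / a i else 0}

/-- the sign `(-1)^(p_A(n, k))` -/
noncomputable def s (a : ℕ → ℕ) (k n : ℕ) : ℝ := if f a k n = 0 then 1 else -1

lemma s_sq (a : ℕ → ℕ) (k n : ℕ) : s a k n * s a k n = 1 := by
  unfold s; split_ifs <;> norm_num

lemma s_eq_or (a : ℕ → ℕ) (k n : ℕ) : s a k n = 1 ∨ s a k n = -1 := by
  unfold s; split_ifs <;> simp

lemma zmod2_cases (x : ZMod 2) : x = 0 ∨ x = 1 := by
  revert x; decide

lemma s_four (a : ℕ → ℕ) (k n1 n2 n3 n4 : ℕ)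
    (h : f a k n1 + f a k n2 + f a k n3 + f a k n4 = 0) :
    s a k n1 * s a k n2 = s a k n3 * s a k n4 := by
  unfold s
  rcases zmod2_cases (f a k n1) with h1 | h1 <;> rcases zmod2_cases (f a k n2) with h2 | h2 <;>
    rcases zmod2_cases (f a k n3) with h3 | h3 <;> rcases zmod2_cases (f a k n4) with h4 | h4 <;>
    rw [h1, h2, h3, h4] at h ⊢ <;> first | (exfalso; revert h; decide) | norm_num

/-- `q_j = P / a_j` -/
def q (a : ℕ → ℕ) (k j : ℕ) : ℕ := (∏ i ∈ (Finset.range k).erase j, a i) * 2 ^ k

lemma P_eq (a : ℕ → ℕ) (k j : ℕ) (hj : j < k) : P a k = a j * q a k j := by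
  unfold P q
  rw [← Finset.mul_prod_erase (Finset.range k) a (Finset.mem_range.2 hj), mul_assoc]

lemma q_pos (a : ℕ → ℕ) (ha : ∀ i, 0 < a i) (k j : ℕ) : 0 < q a k j :=
  Nat.mul_pos (Finset.prod_pos fun i _ => ha i) (by positivity)

lemma dvd_q (a : ℕ → ℕ) (k i j : ℕ) (hi : i < k) (hij : i ≠ j) : a i ∣ q a k j :=
  (Finset.dvd_prod_of_mem a (Finset.mem_erase.2 ⟨hij, Finset.mem_range.2 hi⟩)).mul_right _

lemma coprime_q (a : ℕ → ℕ) (k j : ℕ) (hj : Isolated a j) : Nat.Coprime (a j) (q a k j) := by
  unfold q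
  apply Nat.Coprime.mul_right
  · apply Nat.Coprime.prod_right
    intro i hi
    exact hj.2.2 i (Finset.mem_erase.1 hi).1
  · apply Nat.Coprime.pow_right
    exact Nat.coprime_two_right.2 hj.1

open Polynomial in
/-- the mixed second difference vanishes -/
lemma mixed (a : ℕ → ℕ) (ha : ∀ i, 0 < a i) (k j : ℕ) (hj : j < k) (n : ℕ) :
    f a k (n + (q a k j + a j)) + f a k (n + q a k j) + f a k (n + a j) + f a k n = 0 := by
  have hk : 0 < k := by omega
  have h1 : D a k ∣ (X ^ q a k j - 1) * (X ^ a j - 1) := by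
    unfold D
    rw [← Finset.mul_prod_erase (Finset.range k) _ (Finset.mem_range.2 hj), mul_comm]
    apply mul_dvd_mul _ dvd_rfl
    apply prod_dvd a _ k _
    · exact (Finset.card_le_card (Finset.erase_subset _ _)).trans (by simp)
    · intro i hi
      exact Finset.dvd_prod_of_mem a hi
  have hd : ((X ^ q a k j - 1) * (X ^ a j - 1) : (ZMod 2)[X]).natDegree = q a k j + a j := by
    have hm1 : (X ^ q a k j - 1 : (ZMod 2)[X]).Monic := monic_X_pow_sub_C _ (q_pos a ha k j).ne'
    have hm2 : (X ^ a j - 1 : (ZMod 2)[X]).Monic := monic_X_pow_sub_C _ (ha j).ne'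
    rw [hm1.natDegree_mul hm2]
    congr 1
    · exact natDegree_X_pow_sub_C
    · exact natDegree_X_pow_sub_C
  have h2 := coeff_zero_of_dvd a ha k hk _ h1 (n + (q a k j + a j)) (by rw [hd]; omega)
  have h3 : (PowerSeries.mk (f a k)) *
      (((X ^ q a k j - 1) * (X ^ a j - 1) : (ZMod 2)[X]) : PowerSeries (ZMod 2)) =
      PowerSeries.X ^ (q a k j + a j) * PowerSeries.mk (f a k) -
      PowerSeries.X ^ (q a k j) * PowerSeries.mk (f a k) -
      PowerSeries.X ^ (a j) * PowerSeries.mk (f a k) + PowerSeries.mk (f a k) := by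
    push_cast
    ring
  rw [h3] at h2
  rw [map_add, map_sub, map_sub, PowerSeries.coeff_X_pow_mul', PowerSeries.coeff_X_pow_mul',
    PowerSeries.coeff_X_pow_mul', if_pos (by omega), if_pos (by omega), if_pos (by omega)] at h2
  simp only [PowerSeries.coeff_mk] at h2
  rw [show n + (q a k j + a j) - (q a k j + a j) = n by omega,
    show n + (q a k j + a j) - q a k j = n + a j by omega,
    show n + (q a k j + a j) - a j = n + q a k j by omega] at h2
  have h4 : (2 : ZMod 2) = 0 := rfl
  linear_combination h2 + (f a k (n + q a k j) + f a k (n + a j)) * h4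

/-- `K_j(n) = s(n) s(n + q_j)` has period `a_j` -/
lemma K_periodic (a : ℕ → ℕ) (ha : ∀ i, 0 < a i) (k j : ℕ) (hj : j < k) (n : ℕ) :
    s a k (n + a j) * s a k (n + a j + q a k j) = s a k n * s a k (n + q a k j) := by
  apply s_four
  have := mixed a ha k j hj n
  rw [show n + a j + q a k j = n + (q a k j + a j) by ring]
  linear_combination this

lemma K_periodic_mul (a : ℕ → ℕ) (ha : ∀ i, 0 < a i) (k j : ℕ) (hj : j < k) (n m : ℕ) :
    s a k (n + m * a j) * s a k (n + m * a j + q a k j) = s a k n * s a k (n + q a k j) := by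
  induction m with
  | zero => simp
  | succ m ih =>
    rw [show n + (m + 1) * a j = (n + m * a j) + a j by ring, K_periodic a ha k j hj, ih]

/-- `s(n) s(n + t q_j)` has period `a_j` in `n` -/
lemma L_periodic (a : ℕ → ℕ) (ha : ∀ i, 0 < a i) (k j : ℕ) (hj : j < k) (n m t : ℕ) :
    s a k (n + m * a j) * s a k (n + m * a j + t * q a k j) =
      s a k n * s a k (n + t * q a k j) := by
  induction t with
  | zero => simp [s_sq]
  | succ t ih =>
    have h1 := K_periodic_mul a ha k j hj (n + t * q a k j) m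
    have e1 : n + t * q a k j + m * a j = n + m * a j + t * q a k j := by ring
    have e2 : n + m * a j + t * q a k j + q a k j = n + m * a j + (t + 1) * q a k j := by ring
    have e3 : n + t * q a k j + q a k j = n + (t + 1) * q a k j := by ring
    rw [e1, e2, e3] at h1
    have h2 := s_sq a k (n + m * a j + t * q a k j)
    have h3 := s_sq a k (n + t * q a k j)
    calc s a k (n + m * a j) * s a k (n + m * a j + (t + 1) * q a k j)
        = s a k (n + m * a j) * (s a k (n + m * a j + t * q a k j) *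
          s a k (n + m * a j + t * q a k j)) * s a k (n + m * a j + (t + 1) * q a k j) := by
            rw [h2]; ring
      _ = (s a k (n + m * a j) * s a k (n + m * a j + t * q a k j)) *
          (s a k (n + m * a j + t * q a k j) * s a k (n + m * a j + (t + 1) * q a k j)) := by ring
      _ = (s a k n * s a k (n + t * q a k j)) *
          (s a k (n + t * q a k j) * s a k (n + (t + 1) * q a k j)) := by rw [ih, h1]
      _ = (s a k (n + t * q a k j) * s a k (n + t * q a k j)) *
          (s a k n * s a k (n + (t + 1) * q a k j)) := by ring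
      _ = _ := by rw [h3, one_mul]

lemma s_periodic (a : ℕ → ℕ) (ha : ∀ i, 0 < a i) (k : ℕ) (hk : 0 < k) (n : ℕ) :
    s a k (n + P a k) = s a k n := by
  unfold s
  rw [periodic a ha k hk]

lemma s_periodic_mul (a : ℕ → ℕ) (ha : ∀ i, 0 < a i) (k : ℕ) (hk : 0 < k) (n m : ℕ) :
    s a k (n + m * P a k) = s a k n := by
  induction m with
  | zero => simp
  | succ m ih =>
    rw [show n + (m + 1) * P a k = (n + m * P a k) + P a k by ring, s_periodic a ha k hk, ih]

open Polynomial in
/-- `X^b - 1` divides `X^M - 1` only if `b` divides `M` -/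
lemma dvd_of_X_pow (b M : ℕ) (hb : 0 < b)
    (h : (X ^ b - 1 : (ZMod 2)[X]) ∣ X ^ M - 1) : b ∣ M := by
  have h1 : (X ^ b - 1 : (ZMod 2)[X]) ∣ X ^ (b * (M / b)) - 1 := by
    rw [pow_mul]
    simpa using sub_dvd_pow_sub_pow (X ^ b : (ZMod 2)[X]) 1 (M / b)
  have h2 : (X ^ b - 1 : (ZMod 2)[X]) ∣ X ^ (M % b) - 1 := by
    have h3 : (X ^ M - 1 : (ZMod 2)[X]) = X ^ (M % b) * (X ^ (b * (M / b)) - 1) +
        (X ^ (M % b) - 1) := by
      rw [mul_sub, ← pow_add, Nat.mod_add_div]
      ring
    rw [h3] at h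
    exact (dvd_add_right (h1.mul_left _)).1 h
  by_contra hcon
  have h3 : M % b ≠ 0 := fun h => hcon (Nat.dvd_of_mod_eq_zero h)
  have h4 : (X ^ (M % b) - 1 : (ZMod 2)[X]) ≠ 0 := (monic_X_pow_sub_C (1 : ZMod 2) h3).ne_zero
  have h5 := natDegree_le_of_dvd h2 h4
  have h6 : (X ^ b - 1 : (ZMod 2)[X]).natDegree = b := natDegree_X_pow_sub_C (r := (1 : ZMod 2))
  have h7 : (X ^ (M % b) - 1 : (ZMod 2)[X]).natDegree = M % b :=
    natDegree_X_pow_sub_C (r := (1 : ZMod 2))
  rw [h6, h7] at h5
  exact absurd (Nat.mod_lt M hb) (by omega)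

open Polynomial in
/-- `f` does not have the period `q_j` -/
lemma not_periodic (a : ℕ → ℕ) (ha : ∀ i, 0 < a i) (k j : ℕ) (hj : j < k) (hi : Isolated a j)
    (h : ∀ m, f a k (m + q a k j) = f a k m) : False := by
  set M := q a k j with hM
  have hMpos : 0 < M := q_pos a ha k j
  set Q : (ZMod 2)[X] := ∑ i ∈ Finset.range M, C (f a k i) * X ^ i with hQ
  have h1 : (PowerSeries.mk (f a k)) * ((X ^ M - 1 : (ZMod 2)[X]) : PowerSeries (ZMod 2)) =
      -(Q : PowerSeries (ZMod 2)) := by
    ext n
    have h2 : (PowerSeries.mk (f a k)) * ((X ^ M - 1 : (ZMod 2)[X]) : PowerSeries (ZMod 2)) =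
        PowerSeries.X ^ M * PowerSeries.mk (f a k) - PowerSeries.mk (f a k) := by
      push_cast
      ring
    rw [h2, map_sub, PowerSeries.coeff_X_pow_mul', map_neg, Polynomial.coeff_coe, hQ,
      finsetSum_coeff]
    simp only [coeff_C_mul, coeff_X_pow, mul_ite, mul_one, mul_zero]
    rw [Finset.sum_ite_eq (Finset.range M) n]
    simp only [PowerSeries.coeff_mk, Finset.mem_range]
    by_cases hn : n < M
    · rw [if_neg (by omega), if_pos hn, zero_sub]
    · rw [if_pos (by omega), if_neg hn, neg_zero]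
      have := h (n - M)
      rw [Nat.sub_add_cancel (by omega)] at this
      rw [this, sub_self]
  have h2 : (X ^ M - 1 : (ZMod 2)[X]) = D a k * (-Q) := by
    apply Polynomial.coe_injective (ZMod 2)
    rw [Polynomial.coe_mul, Polynomial.coe_neg, ← h1]
    have := F_mul_D a ha k
    linear_combination -((X ^ M - 1 : (ZMod 2)[X]) : PowerSeries (ZMod 2)) * this
  have h3 : (X ^ a j - 1 : (ZMod 2)[X]) ∣ X ^ M - 1 := by
    rw [h2]
    exact (Finset.dvd_prod_of_mem (fun i => (X ^ a i - 1 : (ZMod 2)[X]))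
      (Finset.mem_range.2 hj)).mul_right _
  have h4 := dvd_of_X_pow (a j) M (ha j) h3
  have h5 := Nat.Coprime.eq_one_of_dvd (coprime_q a k j hi) h4
  have h6 := hi.2.1
  omega

lemma f_eq_of_s (a : ℕ → ℕ) (k n m : ℕ) (h : s a k n * s a k m = 1) : f a k n = f a k m := by
  unfold s at h
  rcases zmod2_cases (f a k n) with h1 | h1 <;> rcases zmod2_cases (f a k m) with h2 | h2 <;>
    rw [h1, h2] at h ⊢ <;> exfalso <;> norm_num at h

/-- for every `n` some `s(n + t q_j)`, `t < a_j`, differs from `s(n)` -/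
lemma exists_ne (a : ℕ → ℕ) (ha : ∀ i, 0 < a i) (k j : ℕ) (hj : j < k) (hi : Isolated a j) (n : ℕ) :
    ∃ t ∈ Finset.range (a j), s a k n * s a k (n + t * q a k j) = -1 := by
  by_contra hcon
  push Not at hcon
  have hk : 0 < k := by omega
  have h1 : ∀ t ∈ Finset.range (a j), s a k (n + t * q a k j) = s a k n := by
    intro t ht
    have h2 := hcon t ht
    rcases s_eq_or a k n with h3 | h3 <;> rcases s_eq_or a k (n + t * q a k j) with h4 | h4 <;>
      rw [h3, h4] at h2 ⊢ <;> exfalso <;> norm_num at h2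
  have h2 : ∀ t, s a k (n + t * q a k j) = s a k n := by
    intro t
    have h3 : n + t * q a k j = (n + (t % a j) * q a k j) + (t / a j) * P a k := by
      rw [P_eq a k j hj]
      have h4 : t = t % a j + a j * (t / a j) := (Nat.mod_add_div t (a j)).symm
      conv_lhs => rw [h4]
      ring
    rw [h3, s_periodic_mul a ha k hk]
    exact h1 _ (Finset.mem_range.2 (Nat.mod_lt _ (ha j)))
  apply not_periodic a ha k j hj hi
  intro m
  apply f_eq_of_s
  rw [mul_comm]
  -- choose `t` with `n + t q_j ≡ m` modulo `a_j`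
  obtain ⟨t, ht⟩ : ∃ t : ℕ, n + t * q a k j ≡ m [MOD a j] := by
    have hne : NeZero (a j) := ⟨(ha j).ne'⟩
    let u := ZMod.unitOfCoprime (q a k j) (coprime_q a k j hi).symm
    refine ⟨(((m : ZMod (a j)) - n) * ((u⁻¹ : (ZMod (a j))ˣ) : ZMod (a j))).val, ?_⟩
    rw [← ZMod.natCast_eq_natCast_iff]
    push_cast
    rw [ZMod.natCast_zmod_val]
    have hu : ((u⁻¹ : (ZMod (a j))ˣ) : ZMod (a j)) * (q a k j : ZMod (a j)) = 1 := by
      have h4 : (q a k j : ZMod (a j)) = (u : ZMod (a j)) := rfl
      rw [h4, Units.inv_mul]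
    linear_combination ((m : ZMod (a j)) - n) * hu
  have key : ∀ x y : ℕ, x ≤ y → x ≡ y [MOD a j] →
      s a k y * s a k (y + q a k j) = s a k x * s a k (x + q a k j) := by
    intro x y hxy hmod
    obtain ⟨c, hc⟩ := (Nat.modEq_iff_dvd' hxy).1 hmod
    have : y = x + c * a j := by rw [mul_comm]; omega
    rw [this]
    exact K_periodic_mul a ha k j hj x c
  have h5 : s a k m * s a k (m + q a k j) =
      s a k (n + t * q a k j) * s a k (n + t * q a k j + q a k j) := by
    rcases le_total (n + t * q a k j) m with h6 | h6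
    · exact key _ _ h6 ht
    · exact (key _ _ h6 ht.symm).symm
  rw [h5, show n + t * q a k j + q a k j = n + (t + 1) * q a k j by ring, h2, h2, s_sq]

/-- `c_j(n) = ∑_{t < a_j} s(n) s(n + t q_j)` -/
noncomputable def c (a : ℕ → ℕ) (k j n : ℕ) : ℝ :=
  ∑ t ∈ Finset.range (a j), s a k n * s a k (n + t * q a k j)

lemma c_abs_le (a : ℕ → ℕ) (ha : ∀ i, 0 < a i) (k j : ℕ) (hj : j < k) (hi : Isolated a j) (n : ℕ) :
    |c a k j n| ≤ a j - 2 := by
  obtain ⟨t, ht, hst⟩ := exists_ne a ha k j hj hi n
  have h0 : (0 : ℕ) ∈ Finset.range (a j) := Finset.mem_range.2 (ha j)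
  have h1 : ∀ t, s a k n * s a k (n + t * q a k j) ≤ 1 ∧
      -1 ≤ s a k n * s a k (n + t * q a k j) := by
    intro t
    rcases s_eq_or a k n with h3 | h3 <;> rcases s_eq_or a k (n + t * q a k j) with h4 | h4 <;>
      rw [h3, h4] <;> norm_num
  have hcard : ∀ i ∈ Finset.range (a j), (((Finset.range (a j)).erase i).card : ℝ) = a j - 1 := by
    intro i hi
    rw [Finset.card_erase_of_mem hi, Finset.card_range, Nat.cast_sub (ha j), Nat.cast_one]
  rw [abs_le]
  constructor
  · unfold c
    rw [← Finset.add_sum_erase _ _ h0]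
    have h2 : -((a j : ℝ) - 1) ≤ ∑ t ∈ (Finset.range (a j)).erase 0,
        s a k n * s a k (n + t * q a k j) := by
      have := Finset.card_nsmul_le_sum ((Finset.range (a j)).erase 0)
        (fun t => s a k n * s a k (n + t * q a k j)) (-1) (fun t _ => (h1 t).2)
      rw [nsmul_eq_mul, hcard 0 h0] at this
      linarith
    have h3 : s a k n * s a k (n + 0 * q a k j) = 1 := by
      rw [zero_mul, add_zero, s_sq]
    rw [h3]
    linarith
  · unfold c
    rw [← Finset.add_sum_erase _ _ ht, hst]
    have h2 : ∑ t ∈ (Finset.range (a j)).erase t,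
        s a k n * s a k (n + t * q a k j) ≤ (a j : ℝ) - 1 := by
      have := Finset.sum_le_card_nsmul ((Finset.range (a j)).erase t)
        (fun t => s a k n * s a k (n + t * q a k j)) 1 (fun t _ => (h1 t).1)
      rw [nsmul_eq_mul, hcard t ht] at this
      linarith
    linarith

/-- `c_j` is invariant under translation by `t q_i`, `i ≠ j` -/
lemma c_shift (a : ℕ → ℕ) (ha : ∀ i, 0 < a i) (k j i : ℕ) (hj : j < k) (hij : j ≠ i) (n t : ℕ) :
    c a k j (n + t * q a k i) = c a k j n := by
  obtain ⟨e, he⟩ := dvd_q a k j i hj hij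
  unfold c
  apply Finset.sum_congr rfl
  intro u _
  have := L_periodic a ha k j hj n (t * e) u
  rw [show t * e * a j = t * q a k i by rw [he]; ring] at this
  exact this

lemma c_periodic (a : ℕ → ℕ) (ha : ∀ i, 0 < a i) (k j : ℕ) (hj : j < k) (n : ℕ) :
    c a k j (n + P a k) = c a k j n := by
  unfold c
  apply Finset.sum_congr rfl
  intro u _
  have := L_periodic a ha k j hj n (q a k j) u
  rw [show q a k j * a j = P a k by rw [P_eq a k j hj]; ring] at this
  exact this

lemma sum_shift (g : ℕ → ℝ) (L : ℕ) (hg : ∀ n, g (n + L) = g n) (t : ℕ) :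
    ∑ n ∈ Finset.range L, g (n + t) = ∑ n ∈ Finset.range L, g n := by
  induction t with
  | zero => simp
  | succ t ih =>
    have h1 : ∑ n ∈ Finset.range L, g (n + (t + 1)) + g (0 + t) =
        ∑ n ∈ Finset.range (L + 1), g (n + t) := by
      rw [Finset.sum_range_succ']
      congr 1
      apply Finset.sum_congr rfl
      intro n _
      rw [show n + (t + 1) = n + 1 + t by ring]
    rw [Finset.sum_range_succ, ih] at h1
    have h2 : g (L + t) = g (0 + t) := by rw [zero_add, add_comm, hg]
    rw [h2] at h1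
    linarith

/-- the averaging identity -/
lemma average (a : ℕ → ℕ) (ha : ∀ i, 0 < a i) (k : ℕ) (hk : 0 < k) (J : Finset ℕ)
    (hJ : ∀ j ∈ J, j < k) :
    ∑ n ∈ Finset.range (P a k), s a k n =
      ∑ n ∈ Finset.range (P a k), s a k n * ∏ j ∈ J, (c a k j n / a j) := by
  classical
  induction J using Finset.induction_on with
  | empty => simp
  | insert i J hi ih =>
    rw [ih (fun j hj => hJ j (Finset.mem_insert_of_mem hj))]
    have hik := hJ i (Finset.mem_insert_self i J)
    set g : ℕ → ℝ := fun n => s a k n * ∏ j ∈ J, (c a k j n / a j) with hg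
    have hgP : ∀ n, g (n + P a k) = g n := by
      intro n
      simp only [hg]
      rw [s_periodic a ha k hk]
      congr 1
      apply Finset.prod_congr rfl
      intro j hj
      rw [c_periodic a ha k j (hJ j (Finset.mem_insert_of_mem hj))]
    have hai : (a i : ℝ) ≠ 0 := by exact_mod_cast (ha i).ne'
    have h1 : (a i : ℝ) * ∑ n ∈ Finset.range (P a k), g n =
        ∑ t ∈ Finset.range (a i), ∑ n ∈ Finset.range (P a k), g (n + t * q a k i) := by
      rw [Finset.sum_congr rfl fun t _ => sum_shift g (P a k) hgP (t * q a k i), Finset.sum_const,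
        Finset.card_range, nsmul_eq_mul]
    have h2 : ∑ n ∈ Finset.range (P a k), s a k n * ∏ j ∈ insert i J, (c a k j n / a j) =
        (∑ t ∈ Finset.range (a i), ∑ n ∈ Finset.range (P a k), g (n + t * q a k i)) / a i := by
      rw [Finset.sum_comm, Finset.sum_div]
      apply Finset.sum_congr rfl
      intro n _
      rw [Finset.prod_insert hi]
      have h3 : ∀ t ∈ Finset.range (a i), g (n + t * q a k i) =
          s a k (n + t * q a k i) * ∏ j ∈ J, (c a k j n / a j) := by
        intro t _
        simp only [hg]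
        congr 1
        apply Finset.prod_congr rfl
        intro j hj
        rw [c_shift a ha k j i (hJ j (Finset.mem_insert_of_mem hj))
          (fun h => hi (h ▸ hj))]
      rw [Finset.sum_congr rfl h3, ← Finset.sum_mul]
      unfold c
      rw [← Finset.mul_sum]
      have h4 := s_sq a k n
      have h5 : s a k n * (s a k n * ∑ t ∈ Finset.range (a i), s a k (n + t * q a k i)) =
        ∑ t ∈ Finset.range (a i), s a k (n + t * q a k i) := by
        rw [← mul_assoc, h4, one_mul]
      rw [← mul_assoc, ← mul_div_assoc, h5]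
      ring
    rw [h2, ← h1]
    field_simp

lemma sum_abs_le (a : ℕ → ℕ) (ha : ∀ i, 0 < a i) (k : ℕ) (hk : 0 < k) (J : Finset ℕ)
    (hJ : ∀ j ∈ J, j < k) (hJi : ∀ j ∈ J, Isolated a j) :
    |∑ n ∈ Finset.range (P a k), s a k n| ≤ P a k * ∏ j ∈ J, (1 - 2 / (a j : ℝ)) := by
  rw [average a ha k hk J hJ]
  refine (Finset.abs_sum_le_sum_abs _ _).trans ?_
  have h1 : ∀ n ∈ Finset.range (P a k), |s a k n * ∏ j ∈ J, (c a k j n / a j)| ≤
      ∏ j ∈ J, (1 - 2 / (a j : ℝ)) := by
    intro n _
    rw [abs_mul]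
    have h2 : |s a k n| = 1 := by rcases s_eq_or a k n with h | h <;> rw [h] <;> norm_num
    rw [h2, one_mul, Finset.abs_prod]
    apply Finset.prod_le_prod (fun _ _ => abs_nonneg _)
    intro j hj
    have h3 : (0 : ℝ) < a j := by exact_mod_cast ha j
    rw [abs_div, abs_of_pos h3, div_le_iff₀ h3]
    have h4 := c_abs_le a ha k j (hJ j hj) (hJi j hj) n
    rw [sub_mul, one_mul, div_mul_cancel₀ _ h3.ne']
    exact h4
  refine (Finset.sum_le_card_nsmul _ _ _ h1).trans ?_
  rw [Finset.card_range, nsmul_eq_mul]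

/-- the odd density -/
noncomputable def δ (a : ℕ → ℕ) (k : ℕ) : ℝ :=
  (((Finset.range (P a k)).filter (fun n => Odd (rp a n k))).card : ℝ) / P a k

lemma δ_eq (a : ℕ → ℕ) (ha : ∀ i, 0 < a i) (k : ℕ) :
    δ a k - 1 / 2 = -(∑ n ∈ Finset.range (P a k), s a k n) / (2 * P a k) := by
  have hP : (0 : ℝ) < P a k := by exact_mod_cast P_pos a ha k
  have h1 : ∑ n ∈ Finset.range (P a k), s a k n =
      P a k - 2 * (((Finset.range (P a k)).filter (fun n => Odd (rp a n k))).card : ℝ) := by
    have h2 : ∀ n ∈ Finset.range (P a k), s a k n = 1 - 2 * (if Odd (rp a n k) then (1 : ℝ) else 0) := by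
      intro n _
      unfold s
      by_cases h : f a k n = 0
      · rw [if_pos h, if_neg (fun h' => (odd_iff_f a k n).1 h' h)]; norm_num
      · rw [if_neg h, if_pos ((odd_iff_f a k n).2 h)]; norm_num
    rw [Finset.sum_congr rfl h2, Finset.sum_sub_distrib, Finset.sum_const, Finset.card_range,
      ← Finset.mul_sum, Finset.sum_boole]
    simp
  rw [h1]
  unfold δ
  field_simp
  ring

lemma main (a : ℕ → ℕ) (ha : a ∈ Family) : Tendsto (δ a) atTop (𝓝 (1 / 2)) := by
  classical
  obtain ⟨hpos, hdiv⟩ := ha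
  set g : ℕ → ℝ := fun i => if Isolated a i then (1 : ℝ) / a i else 0 with hg
  have hg0 : ∀ n, 0 ≤ g n := by
    intro n
    simp only [hg]
    split_ifs <;> positivity
  have hdiv' : ¬ Summable g := by
    convert hdiv using 3
  have h1 := (not_summable_iff_tendsto_nat_atTop_of_nonneg hg0).1 hdiv'
  have h2 : Tendsto (fun k => Real.exp (-2 * ∑ i ∈ Finset.range k, g i)) atTop (𝓝 0) := by
    apply Real.tendsto_exp_atBot.comp
    exact h1.const_mul_atTop_of_neg (by norm_num)
  have h3 : ∀ k, 1 ≤ k → |δ a k - 1 / 2| ≤ Real.exp (-2 * ∑ i ∈ Finset.range k, g i) := by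
    intro k hk
    rw [δ_eq a hpos]
    have hP : (0 : ℝ) < P a k := by exact_mod_cast P_pos a hpos k
    have h4 := sum_abs_le a hpos k hk ((Finset.range k).filter fun i => Isolated a i)
      (fun j hj => Finset.mem_range.1 (Finset.mem_filter.1 hj).1)
      (fun j hj => (Finset.mem_filter.1 hj).2)
    have h5 : ∏ j ∈ (Finset.range k).filter (fun i => Isolated a i), (1 - 2 / (a j : ℝ)) ≤
        Real.exp (-2 * ∑ i ∈ Finset.range k, g i) := by
      have h6 : -2 * ∑ i ∈ Finset.range k, g i =
          ∑ j ∈ (Finset.range k).filter (fun i => Isolated a i), (-(2 / (a j : ℝ))) := by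
        rw [Finset.sum_filter, Finset.mul_sum]
        apply Finset.sum_congr rfl
        intro i _
        simp only [hg]
        split_ifs <;> ring
      rw [h6, Real.exp_sum]
      apply Finset.prod_le_prod
      · intro j hj
        have h7 := (Finset.mem_filter.1 hj).2.2.1
        have h8 : (2 : ℝ) ≤ a j := by exact_mod_cast h7
        rw [sub_nonneg, div_le_one (by linarith)]
        exact h8
      · intro j _
        have := Real.add_one_le_exp (-(2 / (a j : ℝ)))
        linarith
    rw [abs_div, abs_neg, abs_of_pos (by positivity : (0 : ℝ) < 2 * P a k), div_le_iff₀ (by positivity)]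
    refine h4.trans ?_
    have h9 : (P a k : ℝ) * ∏ j ∈ (Finset.range k).filter (fun i => Isolated a i),
        (1 - 2 / (a j : ℝ)) ≤ P a k * Real.exp (-2 * ∑ i ∈ Finset.range k, g i) :=
      mul_le_mul_of_nonneg_left h5 hP.le
    have h10 := Real.exp_pos (-2 * ∑ i ∈ Finset.range k, g i)
    nlinarith
  rw [tendsto_iff_norm_sub_tendsto_zero]
  apply squeeze_zero' (Eventually.of_forall fun k => norm_nonneg _) _ h2
  filter_upwards [eventually_ge_atTop 1] with k hk
  exact h3 k hk

lemma gcd_one (a : ℕ → ℕ) (ha : a ∈ Family) (d : ℕ) (hd : ∀ i, d ∣ a i) : d = 1 := by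
  classical
  obtain ⟨i, hi⟩ : ∃ i, Isolated a i := by
    by_contra hcon
    push Not at hcon
    apply ha.2
    have : (fun i => if Isolated a i then (1 : ℝ) / a i else 0) = fun _ => 0 := by
      funext i
      rw [if_neg (hcon i)]
    rw [this]
    exact summable_zero
  exact Nat.eq_one_of_dvd_coprimes (hi.2.2 (i + 1) (by omega)) (hd i) (hd (i + 1))

/-- the sequence of the primes starting with the `m`-th odd prime -/
noncomputable def primesFrom (m i : ℕ) : ℕ := Nat.nth Nat.Prime (m + 1 + i)

lemma primesFrom_prime (m i : ℕ) : (primesFrom m i).Prime :=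
  Nat.nth_mem_of_infinite Nat.infinite_setOfPred_prime _

lemma primesFrom_injective (m : ℕ) : Function.Injective (primesFrom m) := by
  intro i j h
  have := Nat.nth_injective Nat.infinite_setOfPred_prime h
  omega

lemma primesFrom_isolated (m i : ℕ) : Isolated (primesFrom m) i := by
  have hp := primesFrom_prime m i
  have h2 : primesFrom m i ≠ 2 := by
    intro h
    have h0 : Nat.nth Nat.Prime 0 = 2 := Nat.nth_prime_zero_eq_two
    have := Nat.nth_injective Nat.infinite_setOfPred_prime (h.trans h0.symm)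
    omega
  refine ⟨hp.odd_of_ne_two h2, hp.one_lt, ?_⟩
  intro j hj
  rw [Nat.coprime_primes hp (primesFrom_prime m j)]
  intro h
  exact hj (primesFrom_injective m h).symm

lemma primesFrom_mem (m : ℕ) : primesFrom m ∈ Family := by
  classical
  refine ⟨fun i => (primesFrom_prime m i).pos, ?_⟩
  have h1 : (fun i => if Isolated (primesFrom m) i then (1 : ℝ) / primesFrom m i else 0) =
      fun i => (1 : ℝ) / Nat.nth Nat.Prime (i + (m + 1)) := by
    funext i
    rw [if_pos (primesFrom_isolated m i), primesFrom, add_comm i]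
  have h1' : ∀ inst : (i : ℕ) → Decidable (Isolated (primesFrom m) i),
      (fun i => @ite ℝ (Isolated (primesFrom m) i) (inst i) ((1 : ℝ) / primesFrom m i) 0) =
      fun i => (1 : ℝ) / Nat.nth Nat.Prime (i + (m + 1)) := by
    intro inst
    rw [← h1]
    funext i
    congr
  rw [h1']
  rw [summable_nat_add_iff (f := fun i => (1 : ℝ) / Nat.nth Nat.Prime i) (m + 1)]
  intro hs
  apply not_summable_one_div_on_primes
  have hinj : Function.Injective (Nat.nth Nat.Prime) := Nat.nth_injective Nat.infinite_setOfPred_prime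
  rw [← hinj.summable_iff]
  · have hcomp : (Set.indicator {p : ℕ | p.Prime} (fun n : ℕ => (1 : ℝ) / n)) ∘ Nat.nth Nat.Prime =
        fun i => (1 : ℝ) / Nat.nth Nat.Prime i := by
      funext i
      have : Nat.nth Nat.Prime i ∈ {p : ℕ | p.Prime} :=
        Nat.nth_mem_of_infinite Nat.infinite_setOfPred_prime _
      simp only [Function.comp]
      rw [Set.indicator_of_mem this]
    rw [hcomp]
    exact hs
  · intro x hx
    apply Set.indicator_of_notMem
    intro hxp
    apply hx
    have := Nat.range_nth_of_infinite Nat.infinite_setOfPred_prime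
    rw [this]
    exact hxp

lemma family_infinite : Family.Infinite := by
  apply Set.infinite_of_injective_forall_mem (f := primesFrom) _ primesFrom_mem
  intro m m' h
  have h0 := congrFun h 0
  have := Nat.nth_injective Nat.infinite_setOfPred_prime h0
  omega

theorem result : Family.Infinite ∧ (∀ m, primesFrom m ∈ Family) ∧
    ∀ a ∈ Family, (∀ i, 0 < a i) ∧ (∀ d, (∀ i, d ∣ a i) → d = 1) ∧
      ∃ δ : ℕ → ℝ,
        (∀ k, 1 ≤ k → Tendsto (fun N : ℕ =>
          (((Finset.range (N + 1)).filter (fun n => Odd (rp a n k))).card : ℝ) / N)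
          atTop (𝓝 (δ k))) ∧
        Tendsto δ atTop (𝓝 (1 / 2)) :=
  ⟨family_infinite, primesFrom_mem, fun a ha => ⟨ha.1, gcd_one a ha, δ a,
    fun k hk => density_exists a ha.1 k hk, main a ha⟩⟩

end Pool.Agent.Results.MP_4155d9_nt.DivergentReciprocals
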